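import Pool.Agent.Helper94.Canopy.Sprinkle

/-! Module S2: from arms to leaf connections (helper94). -/

set_option linter.unusedSectionVars false

namespace Pool.Agent.Helper37.Canopy

open MeasureTheory ProbabilityTheory unitInterval SimpleGraph

/-! ### Module S2 -/

section S2

theorem sprinkle_numeric (b m : ℕ) (hb : 2 ≤ b) {δ ε : ℝ} (hδ : 0 < δ) (hδ1 : δ ≤ 1)
    (hε : 0 < ε) : ∃ k : ℕ, ∀ N : ℕ, N ≤ (m + 5) * b ^ k →
      (N : ℝ) ^ N * (1 - δ ^ m) ^ ⌈ε * ((b ^ k * b ^ k : ℕ) : ℝ)⌉₊ ≤ ε := by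
  set C : ℝ := (m : ℝ) + 5 with hC
  have hC0 : 0 < C := by positivity
  set c : ℝ := δ ^ m * ε with hc
  have hc0 : 0 < c := by positivity
  have hη : 0 < c / (2 * C ^ 2) := by positivity
  -- eventually log y ≤ η y
  have h1 : ∀ᶠ y : ℝ in Filter.atTop, Real.log y ≤ c / (2 * C ^ 2) * y := by
    have := Real.isLittleO_log_id_atTop.def hη
    filter_upwards [this, Filter.eventually_ge_atTop (1 : ℝ)] with y hy hy1
    simp only [id, Real.norm_eq_abs] at hy
    rw [abs_of_nonneg (by linarith : (0 : ℝ) ≤ y)] at hy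
    exact (le_abs_self _).trans hy
  have h2 : ∀ᶠ y : ℝ in Filter.atTop, -Real.log ε ≤ c / (2 * C ^ 2) * y := by
    have := (Filter.tendsto_id (α := ℝ) (x := Filter.atTop)).const_mul_atTop hη
    exact this.eventually_ge_atTop _
  have hb1 : (1 : ℝ) < b := by exact_mod_cast (by omega : 1 < b)
  have h3 : Filter.Tendsto (fun k : ℕ => C * (b : ℝ) ^ k) Filter.atTop Filter.atTop :=
    (tendsto_pow_atTop_atTop_of_one_lt hb1).const_mul_atTop hC0
  obtain ⟨k, hk1, hk2, hk3⟩ := ((h3.eventually h1).and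
    ((h3.eventually h2).and (h3.eventually_ge_atTop 1))).exists
  refine ⟨k, fun N hN => ?_⟩
  set x : ℝ := (b : ℝ) ^ k with hx
  have hx0 : 0 < x := by positivity
  set M : ℕ := (m + 5) * b ^ k with hM
  have hMx : (M : ℝ) = C * x := by
    rw [hM, hC, hx]
    push_cast
    ring
  have hM1 : 1 ≤ M := by
    have : (1 : ℝ) ≤ (M : ℝ) := by rw [hMx]; exact hk3
    exact_mod_cast this
  have hNM : (N : ℝ) ^ N ≤ (M : ℝ) ^ M := by
    have : N ^ N ≤ M ^ M := (Nat.pow_le_pow_left hN N).trans (Nat.pow_le_pow_right hM1 hN)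
    exact_mod_cast this
  have hMM : (M : ℝ) ^ M = Real.exp (C * x * Real.log (C * x)) := by
    have hMpos : (0 : ℝ) < M := by exact_mod_cast hM1
    rw [← hMx, mul_comm, Real.exp_mul, Real.exp_log hMpos, Real.rpow_natCast]
  have hq0 : 0 ≤ 1 - δ ^ m := by
    have := pow_le_one₀ (n := m) hδ.le hδ1
    linarith
  have hq : (1 - δ ^ m) ^ ⌈ε * ((b ^ k * b ^ k : ℕ) : ℝ)⌉₊ ≤ Real.exp (-(c * x ^ 2)) := by
    have h4 : 1 - δ ^ m ≤ Real.exp (-δ ^ m) := by
      have := Real.add_one_le_exp (-δ ^ m)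
      linarith
    calc (1 - δ ^ m) ^ ⌈ε * ((b ^ k * b ^ k : ℕ) : ℝ)⌉₊
        ≤ (Real.exp (-δ ^ m)) ^ ⌈ε * ((b ^ k * b ^ k : ℕ) : ℝ)⌉₊ :=
          pow_le_pow_left₀ hq0 h4 _
      _ = Real.exp (⌈ε * ((b ^ k * b ^ k : ℕ) : ℝ)⌉₊ * (-δ ^ m)) := by
          rw [Real.exp_nat_mul]
      _ ≤ Real.exp (-(c * x ^ 2)) := by
          apply Real.exp_le_exp.2
          have h5 := Nat.le_ceil (ε * ((b ^ k * b ^ k : ℕ) : ℝ))
          have h6 : (ε * ((b ^ k * b ^ k : ℕ) : ℝ)) = ε * x ^ 2 := by
            rw [hx]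
            push_cast
            ring
          rw [h6] at h5 ⊢
          have h7 : 0 < δ ^ m := by positivity
          rw [hc]
          nlinarith
  have hfin : C * x * Real.log (C * x) + -(c * x ^ 2) ≤ Real.log ε := by
    have h8 : C * x * Real.log (C * x) ≤ C * x * (c / (2 * C ^ 2) * (C * x)) :=
      mul_le_mul_of_nonneg_left hk1 (by positivity)
    have h9 : C * x * (c / (2 * C ^ 2) * (C * x)) = c * x ^ 2 / 2 := by
      field_simp
    have h10 : C * x * (-Real.log ε) ≤ C * x * (c / (2 * C ^ 2) * (C * x)) :=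
      mul_le_mul_of_nonneg_left hk2 (by positivity)
    rw [h9] at h8 h10
    by_cases h11 : 0 ≤ Real.log ε
    · have : 0 ≤ c * x ^ 2 := by positivity
      linarith
    · push Not at h11
      have : -Real.log ε ≤ C * x * (-Real.log ε) := by
        have h12 : (1 : ℝ) ≤ C * x := hk3
        nlinarith
      linarith
  calc (N : ℝ) ^ N * (1 - δ ^ m) ^ ⌈ε * ((b ^ k * b ^ k : ℕ) : ℝ)⌉₊
      ≤ Real.exp (C * x * Real.log (C * x)) * Real.exp (-(c * x ^ 2)) := by
        rw [← hMM]
        exact mul_le_mul hNM hq (pow_nonneg hq0 _) (by positivity)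
    _ = Real.exp (C * x * Real.log (C * x) + -(c * x ^ 2)) := by rw [Real.exp_add]
    _ ≤ Real.exp (Real.log ε) := Real.exp_le_exp.2 hfin
    _ = ε := Real.exp_log hε

variable {D : Type} [AddCommGroup D] [Fintype D] [DecidableEq D] [Nontrivial D]

/-! digitwise translation of words -/

namespace LeafAux

/-- Digitwise translation. -/
def shw (w z : List D) : List D := List.zipWith (· + ·) z w

theorem shw_nil (w : List D) : shw w [] = [] := by
  simp [shw]

theorem shw_length {w z : List D} (h : z.length ≤ w.length) : (shw w z).length = z.length := by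
  simp [shw, h]

theorem shw_concat {w z : List D} (a : D) (h : z.length < w.length) :
    ∃ c, shw w (z ++ [a]) = shw w z ++ [c] := by
  induction z generalizing w with
  | nil =>
    cases w with
    | nil => simp at h
    | cons b w => exact ⟨a + b, by simp [shw]⟩
  | cons e z ih =>
    cases w with
    | nil => simp at h
    | cons b w =>
      obtain ⟨c, hc⟩ := ih (w := w) (by simpa using h)
      refine ⟨c, ?_⟩
      simp only [shw] at hc ⊢
      simp [hc]

theorem shw_inj {w z z' : List D} (h : z.length ≤ w.length) (h' : z'.length ≤ w.length)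
    (e : shw w z = shw w z') : z = z' := by
  induction z generalizing w z' with
  | nil =>
    have : (shw w z').length = 0 := by rw [← e]; simp [shw]
    rw [shw_length h'] at this
    exact (List.length_eq_zero_iff.1 this).symm
  | cons a z ih =>
    cases z' with
    | nil =>
      have : (shw w (a :: z)).length = 0 := by rw [e]; simp [shw]
      rw [shw_length h] at this
      simp at this
    | cons a' z' =>
      cases w with
      | nil => simp at h
      | cons b w =>
        simp only [shw, List.zipWith_cons_cons, List.cons.injEq] at e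
        have h1 := ih (w := w) (z' := z') (by simpa using h) (by simpa using h') e.2
        rw [add_right_cancel e.1, h1]

theorem shw_replicate (w : List D) : shw w (List.replicate w.length 0) = w := by
  induction w with
  | nil => simp [shw]
  | cons b w ih =>
    simp only [shw] at ih ⊢
    simp [List.replicate_succ, ih]

theorem shw_neg (w : List D) : shw (w.map Neg.neg) w = List.replicate w.length 0 := by
  induction w with
  | nil => simp [shw]
  | cons b w ih =>
    simp only [shw] at ih ⊢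
    simp [List.replicate_succ, ih]

theorem shw_adj {w z z' : List D} (hz : z.length ≤ w.length) (hz' : z'.length ≤ w.length)
    (h : (WT D).Adj z z') : (WT D).Adj (shw w z) (shw w z') := by
  rcases h with ⟨a, rfl⟩ | ⟨a, rfl⟩
  · left
    exact shw_concat a (by simp at hz'; omega)
  · right
    exact shw_concat a (by simp at hz; omega)

theorem WZ_adj {q q' : List D × ℤ} : (WZ D).Adj q q' ↔
    ((WT D).Adj q.1 q'.1 ∧ q.2 = q'.2) ∨ ((q'.2 = q.2 + 1 ∨ q.2 = q'.2 + 1) ∧ q.1 = q'.1) := by
  unfold WZ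
  rw [boxProd_adj, zadj]

/-- The translation by `w` and `x` maps the box graph to the translated box graph. -/
theorem shift_adj {k : ℕ} {w : List D} (hw : w.length = k) (x : ℤ) {a b a' b' : ℤ}
    (ha : a' ≤ a + x) (hb : b + x ≤ b') (q q' : List D × ℤ) (h : (BG D k a b).Adj q q') :
    (BG D k a' b').Adj (shw w q.1, q.2 + x) (shw w q'.1, q'.2 + x) := by
  obtain ⟨h1, ⟨h2, h3, h4⟩, ⟨h5, h6, h7⟩⟩ := h
  refine ⟨?_, ⟨?_, ?_, ?_⟩, ⟨?_, ?_, ?_⟩⟩
  · rw [WZ_adj] at h1 ⊢
    rcases h1 with ⟨h8, h9⟩ | ⟨h8, h9⟩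
    · left
      exact ⟨shw_adj (by omega) (by omega) h8, by rw [h9]⟩
    · right
      refine ⟨?_, by rw [h9]⟩
      simp only
      omega
  · rw [shw_length (by omega)]
    exact h2
  · simp only
    omega
  · simp only
    omega
  · rw [shw_length (by omega)]
    exact h5
  · simp only
    omega
  · simp only
    omega

theorem shift_injOn {k : ℕ} {w : List D} (hw : w.length = k) (x : ℤ) :
    Set.InjOn (fun q : List D × ℤ => (shw w q.1, q.2 + x)) {q | q.1.length ≤ k} := by
  rintro ⟨z, s⟩ hz ⟨z', s'⟩ hz' h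
  simp only [Prod.mk.injEq, Set.mem_ofPred_eq] at h hz hz'
  rw [shw_inj (by omega) (by omega) h.1, add_right_cancel h.2]

theorem BG_support {k : ℕ} {a b : ℤ} (q q' : List D × ℤ) (h : (BG D k a b).Adj q q') :
    q ∈ {q : List D × ℤ | q.1.length ≤ k} := h.2.1.1

theorem finite_box (k : ℕ) (a b : ℤ) : (box D k a b).Finite := by
  have h1 : (box D k a b) ⊆ ({z : List D | z.length ≤ k} ×ˢ Set.Icc a b) := by
    rintro ⟨z, s⟩ ⟨h1, h2, h3⟩
    exact ⟨h1, h2, h3⟩
  exact ((List.finite_length_le D k).prod (Set.finite_Icc a b)).subset h1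

theorem finite_edgeSet_BG (k : ℕ) (a b : ℤ) : (BG D k a b).edgeSet.Finite := by
  have h1 : (BG D k a b).edgeSet ⊆
      (fun q : (List D × ℤ) × (List D × ℤ) => s(q.1, q.2)) '' (box D k a b ×ˢ box D k a b) := by
    intro e
    induction e with
    | h x y =>
      intro h
      rw [mem_edgeSet] at h
      exact ⟨(x, y), ⟨h.2.1, h.2.2⟩, rfl⟩
  exact (((finite_box k a b).prod (finite_box k a b)).image _).subset h1

theorem res_reachable_mem {W : Type*} {G : SimpleGraph W} {Q : Set W} {a b : W}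
    (h : (res G Q).Reachable a b) (ha : a ∈ Q) : b ∈ Q := by
  obtain ⟨w⟩ := h
  induction w with
  | nil => exact ha
  | cons h _ ih => exact ih h.2.2

/-- The words of length `k`. -/
def wordsF (D : Type) [Fintype D] [DecidableEq D] (k : ℕ) : Finset (List D) :=
  (Finset.univ : Finset (Fin k → D)).image List.ofFn

theorem mem_wordsF {k : ℕ} {z : List D} : z ∈ wordsF D k ↔ z.length = k := by
  unfold wordsF
  rw [Finset.mem_image]
  constructor
  · rintro ⟨f, _, rfl⟩
    simp
  · intro h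
    subst h
    exact ⟨z.get, Finset.mem_univ _, List.ofFn_get z⟩

theorem card_wordsF (k : ℕ) : (wordsF D k).card = Fintype.card D ^ k := by
  unfold wordsF
  rw [Finset.card_image_of_injective _ List.ofFn_injective, Finset.card_univ, Fintype.card_fun,
    Fintype.card_fin]

/-- The words of length at most `k`. -/
def wordsLeF (D : Type) [Fintype D] [DecidableEq D] (k : ℕ) : Finset (List D) :=
  (Finset.range (k + 1)).biUnion (wordsF D)

theorem mem_wordsLeF {k : ℕ} {z : List D} : z ∈ wordsLeF D k ↔ z.length ≤ k := by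
  unfold wordsLeF
  rw [Finset.mem_biUnion]
  constructor
  · rintro ⟨i, hi, hz⟩
    rw [mem_wordsF] at hz
    rw [Finset.mem_range] at hi
    omega
  · intro h
    exact ⟨z.length, Finset.mem_range.2 (by omega), mem_wordsF.2 rfl⟩

theorem card_wordsLeF (k : ℕ) : (wordsLeF D k).card ≤ 2 * Fintype.card D ^ k := by
  have hb : 2 ≤ Fintype.card D := Fintype.one_lt_card
  induction k with
  | zero =>
    have : wordsLeF D 0 ⊆ {[]} := by
      intro z hz
      rw [mem_wordsLeF] at hz
      simpa using hz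
    have := Finset.card_le_card this
    simp at this ⊢
    omega
  | succ k ih =>
    have h1 : wordsLeF D (k + 1) ⊆ wordsLeF D k ∪ wordsF D (k + 1) := by
      intro z hz
      rw [mem_wordsLeF] at hz
      rw [Finset.mem_union, mem_wordsLeF, mem_wordsF]
      omega
    have h2 := (Finset.card_le_card h1).trans (Finset.card_union_le _ _)
    rw [card_wordsF] at h2
    have h3 : 2 * Fintype.card D ^ k ≤ Fintype.card D ^ (k + 1) := by
      rw [pow_succ, mul_comm]
      exact Nat.mul_le_mul_left _ hb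
    omega

/-- The boundary set. -/
def bdS (D : Type) [Fintype D] [DecidableEq D] (k n : ℕ) : Finset (List D × ℤ) :=
  ((Finset.range (n + 1)).image (fun h : ℕ => (([] : List D), (h : ℤ)))) ∪
    ((wordsLeF D k).image (fun z => (z, (0 : ℤ))) ∪
      (wordsLeF D k).image (fun z => (z, (n : ℤ))))

theorem card_bdS (k n : ℕ) : (bdS D k n).card ≤ n + 1 + 4 * Fintype.card D ^ k := by
  unfold bdS
  have h1 := Finset.card_union_le ((Finset.range (n + 1)).image (fun h : ℕ => (([] : List D), (h : ℤ))))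
    ((wordsLeF D k).image (fun z => (z, (0 : ℤ))) ∪
      (wordsLeF D k).image (fun z => (z, (n : ℤ))))
  have h2 := Finset.card_union_le ((wordsLeF D k).image (fun z => (z, (0 : ℤ))))
      ((wordsLeF D k).image (fun z => (z, (n : ℤ))))
  have h3 := Finset.card_image_le (s := Finset.range (n + 1))
    (f := fun h => (([] : List D), (h : ℤ)))
  have h4 := Finset.card_image_le (s := wordsLeF D k) (f := fun z => (z, (0 : ℤ)))
  have h5 := Finset.card_image_le (s := wordsLeF D k) (f := fun z => (z, (n : ℤ)))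
  have h6 := card_wordsLeF (D := D) k
  rw [Finset.card_range] at h3
  omega

theorem mem_bdS_root {k n : ℕ} {h : ℤ} (h0 : 0 ≤ h) (h1 : h ≤ n) :
    (([] : List D), h) ∈ bdS D k n := by
  unfold bdS
  rw [Finset.mem_union]
  left
  rw [Finset.mem_image]
  refine ⟨h.toNat, Finset.mem_range.2 (by omega), ?_⟩
  simp [Int.toNat_of_nonneg h0]

theorem mem_bdS_bot {k n : ℕ} {z : List D} (hz : z.length ≤ k) :
    (z, (0 : ℤ)) ∈ bdS D k n := by
  unfold bdS
  rw [Finset.mem_union, Finset.mem_union]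
  right
  left
  exact Finset.mem_image_of_mem _ (mem_wordsLeF.2 hz)

theorem mem_bdS_top {k n : ℕ} {z : List D} (hz : z.length ≤ k) :
    (z, (n : ℤ)) ∈ bdS D k n := by
  unfold bdS
  rw [Finset.mem_union, Finset.mem_union]
  right
  right
  exact Finset.mem_image_of_mem (fun z => (z, (n : ℤ))) (mem_wordsLeF.2 hz)

/-- Every leaf point of the box is attached to the boundary set with probability `≥ θ`. -/
theorem attach_bd {p : I} {θ : ℝ} {k H n : ℕ}
    (h : θ ≤ Pr p {ω : Cfg (Sym2 (List D × ℤ)) |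
      ∃ h : ℤ, (opn (BG D k (-H) H) ω).Reachable (List.replicate k 0, 0) ([], h)})
    {w : List D} (hw : w.length = k) {x : ℤ} (hx0 : 0 ≤ x) (hx1 : x ≤ n) :
    θ ≤ Pr p {ω : Cfg (Sym2 (List D × ℤ)) |
      ∃ y ∈ bdS D k n, (opn (BG D k 0 n) ω).Reachable (w, x) y} := by
  set f : List D × ℤ → List D × ℤ := fun q => (shw w q.1, q.2 + x) with hf
  set A' : Set (Cfg (Sym2 (List D × ℤ))) := {ω : Cfg (Sym2 (List D × ℤ)) |
      ∃ h : ℤ, (opn (BG D k (-H) H) ω).Reachable (List.replicate k 0, 0) ([], h)} with hA'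
  have mA' : MeasurableSet A' := by
    have : A' = ⋃ h : ℤ, conn (BG D k (-H) H) (List.replicate k 0, 0) ([], h) := by
      ext ω
      simp [hA', conn]
    rw [this]
    exact MeasurableSet.iUnion (fun h => measurableSet_conn _ _ _)
  have dA' : Dep (BG D k (-H) H).edgeSet A' := by
    intro ω ω' he hω
    obtain ⟨h, hh⟩ := hω
    exact ⟨h, conn_dep _ _ _ ω ω' he hh⟩
  have h1 := Pr_pull_graph (p := p) (G' := BG D k (-H) H) f (shift_injOn hw x)
    (fun q q' hq => BG_support q q' hq) mA' dA'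
  rw [← h1] at h
  refine h.trans ?_
  unfold Pr
  refine measureReal_mono ?_
  rintro ω ⟨h, hh⟩
  have h2 := reach_map (G := BG D k (x - H) (x + H)) (ω := ω) f
    (fun q q' hq => shift_adj hw x (by omega) (by omega) q q' hq) hh
  have h3 : f (List.replicate k 0, 0) = (w, x) := by
    simp only [hf]
    rw [← hw, shw_replicate]
    simp
  have h4 : f ([], h) = ([], h + x) := by
    simp only [hf, shw_nil]
  rw [h3, h4] at h2
  have hQ : ((w, x) : List D × ℤ) ∈ box D k 0 n := ⟨by simp [hw], hx0, hx1⟩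
  have hle : res (opn (BG D k (x - H) (x + H)) ω) (box D k 0 n) ≤ opn (BG D k 0 n) ω := by
    rintro q q' ⟨⟨⟨h5, _⟩, h6⟩, h7, h8⟩
    exact ⟨⟨h5, h7, h8⟩, h6⟩
  rcases reach_or_exit h2 hQ with h5 | ⟨q, hq, q', hq', h5, h6⟩
  · have h6 := res_reachable_mem h5 hQ
    exact ⟨([], h + x), mem_bdS_root h6.2.1 h6.2.2, h5.mono hle⟩
  · refine ⟨q, ?_, h5.mono hle⟩
    obtain ⟨⟨h7, _, h8⟩, _⟩ := h6
    obtain ⟨z, s⟩ := q
    obtain ⟨z', s'⟩ := q'
    obtain ⟨hq1, hq2, hq3⟩ := hq
    simp only at hq1 hq2 hq3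
    have h9 : ¬ (0 ≤ s' ∧ s' ≤ n) := fun h10 => hq' ⟨h8.1, h10.1, h10.2⟩
    rw [WZ_adj] at h7
    simp only at h7
    rcases h7 with ⟨_, h10⟩ | ⟨h10, _⟩
    · exact absurd ⟨by omega, by omega⟩ h9
    · have h11 : s = 0 ∨ s = n := by omega
      rcases h11 with h11 | h11
      · rw [h11]
        exact mem_bdS_bot hq1
      · rw [h11]
        exact mem_bdS_top hq1

/-- The vertical edges above `(w, m t)`. -/
def colS (m : ℕ) (i : List D × ℕ) : Finset (Sym2 (List D × ℤ)) :=
  (Finset.range m).image (fun j : ℕ =>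
    s(((i.1, ((m * i.2 + j : ℕ) : ℤ)) : List D × ℤ), (i.1, ((m * i.2 + j + 1 : ℕ) : ℤ))))

theorem card_colS (m : ℕ) (i : List D × ℕ) : (colS m i).card ≤ m := by
  unfold colS
  exact Finset.card_image_le.trans (by simp)

theorem colS_disjoint {m : ℕ} {i i' : List D × ℕ} (h : i ≠ i') :
    Disjoint (colS m i) (colS m i') := by
  rw [Finset.disjoint_left]
  intro e he he'
  unfold colS at he he'
  rw [Finset.mem_image] at he he'
  obtain ⟨j, hj, rfl⟩ := he
  obtain ⟨j', hj', h1⟩ := he'
  rw [Finset.mem_range] at hj hj'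
  apply h
  rw [Sym2.eq_iff] at h1
  simp only [Prod.mk.injEq, Nat.cast_inj] at h1
  have h2 : i'.1 = i.1 ∧ m * i'.2 + j' = m * i.2 + j := by
    rcases h1 with h1 | h1
    · exact h1.1
    · exfalso
      omega
  have h3 : i'.2 = i.2 := by
    have h4 : (m * i'.2 + j') / m = i'.2 := by
      rw [Nat.mul_add_div (by omega), Nat.div_eq_of_lt hj', add_zero]
    have h5 : (m * i.2 + j) / m = i.2 := by
      rw [Nat.mul_add_div (by omega), Nat.div_eq_of_lt hj, add_zero]
    rw [← h4, ← h5, h2.2]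
  exact Prod.ext h2.1.symm h3.symm

theorem colS_path {m k n : ℕ} {i : List D × ℕ} (hi : i.1.length ≤ k) (hn : m * (i.2 + 1) ≤ n)
    (τ : Cfg (Sym2 (List D × ℤ))) (h : ∀ e ∈ colS m i, τ e = true) :
    (opn (BG D k 0 n) τ).Reachable (i.1, ((m * i.2 : ℕ) : ℤ)) (i.1, ((m * (i.2 + 1) : ℕ) : ℤ)) := by
  have key : ∀ j : ℕ, j ≤ m → (opn (BG D k 0 n) τ).Reachable (i.1, ((m * i.2 : ℕ) : ℤ))
      (i.1, ((m * i.2 + j : ℕ) : ℤ)) := by
    intro j
    induction j with
    | zero => intro _; exact Reachable.refl _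
    | succ j ih =>
      intro hj
      refine (ih (by omega)).trans (Adj.reachable ?_)
      have hn' : m * i.2 + m ≤ n := by rw [← Nat.mul_succ]; exact hn
      refine ⟨⟨?_, ⟨hi, ?_, ?_⟩, ⟨hi, ?_, ?_⟩⟩, ?_⟩
      · rw [WZ_adj]
        right
        refine ⟨?_, rfl⟩
        left
        push_cast
        ring
      · positivity
      · simp only
        exact_mod_cast (by omega : m * i.2 + j ≤ n)
      · positivity
      · simp only
        exact_mod_cast (by omega : m * i.2 + (j + 1) ≤ n)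
      · apply h
        unfold colS
        rw [Finset.mem_image]
        exact ⟨j, Finset.mem_range.2 (by omega), rfl⟩
  have h1 := key m le_rfl
  rw [← Nat.mul_succ] at h1
  exact h1

end LeafAux

open LeafAux

theorem leafConn_of_arm {p p' : I} (hp : p < p') {θ : ℝ} (hθ : 0 < θ) (hA : ArmHyp D p θ) :
    LeafConn D p' (θ ^ 2 / 2) := by
  intro m
  have hp1 : (p : ℝ) < 1 := lt_of_lt_of_le (show (p : ℝ) < p' from hp) p'.2.2
  have hpp : (p : ℝ) < p' := hp
  have hb : 2 ≤ Fintype.card D := Fintype.one_lt_card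
  have hθ1 : θ ≤ 1 := by
    obtain ⟨H, hH⟩ := hA 0
    exact hH.trans measureReal_le_one
  rcases Nat.eq_zero_or_pos m with rfl | hm
  · refine ⟨0, 0, ?_⟩
    have : conn (BG D 0 (-(0 : ℕ)) (0 : ℕ)) ((List.replicate 0 0 : List D), (0 : ℤ))
        ((List.replicate 0 0 : List D), ((0 : ℕ) : ℤ)) = Set.univ := by
      ext ω
      simp only [conn, Set.mem_ofPred_eq, Set.mem_univ, iff_true]
      exact Reachable.refl _
    rw [this]
    unfold Pr
    rw [probReal_univ]
    nlinarith
  · -- sprinkling parameter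
    set δ : ℝ := ((p' : ℝ) - p) / (1 - p) with hδ
    have h1p : (0 : ℝ) < 1 - p := by linarith
    have hδ0 : 0 < δ := div_pos (by linarith) h1p
    have hδ1 : δ ≤ 1 := by
      rw [hδ, div_le_one h1p]
      have := p'.2.2
      linarith
    have hε : 0 < θ ^ 2 / 4 := by positivity
    obtain ⟨k, hk⟩ := sprinkle_numeric (Fintype.card D) m hb hδ0 hδ1 hε
    set n : ℕ := Fintype.card D ^ k with hn
    have hn1 : 1 ≤ n := Nat.one_le_pow _ _ (by omega)
    set G : SimpleGraph (List D × ℤ) := BG D k 0 ((m * n : ℕ) : ℤ) with hG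
    obtain ⟨H, hH⟩ := hA k
    have hfin : G.edgeSet.Finite := finite_edgeSet_BG k _ _
    set J : Finset (List D × ℕ) := wordsF D k ×ˢ Finset.range n with hJ
    have hJcard : J.card = n * n := by
      rw [hJ, Finset.card_product, card_wordsF, Finset.card_range]
    have hJne : J.Nonempty := by
      rw [← Finset.card_pos, hJcard]
      positivity
    have hJmem : ∀ i ∈ J, i.1.length = k ∧ i.2 < n := by
      intro i hi
      rw [hJ, Finset.mem_product, mem_wordsF, Finset.mem_range] at hi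
      exact hi
    have hJn : ∀ i ∈ J, m * (i.2 + 1) ≤ m * n := by
      intro i hi
      exact Nat.mul_le_mul_left m (hJmem i hi).2
    have hdep : ∀ q : List D × ℤ, Dep ((hfin.toFinset : Finset (Sym2 (List D × ℤ))) :
        Set (Sym2 (List D × ℤ))) {ω : Cfg (Sym2 (List D × ℤ)) |
          ∃ y ∈ bdS D k (m * n), (opn G ω).Reachable q y} := by
      intro q ω ω' he hω
      have h' : opn G ω = opn G ω' := opn_congr G (by simpa using he)
      simp only [Set.mem_ofPred_eq] at hω ⊢
      rw [← h']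
      exact hω
    have hup : ∀ q : List D × ℤ, IsUpperSet {ω : Cfg (Sym2 (List D × ℤ)) |
          ∃ y ∈ bdS D k (m * n), (opn G ω).Reachable q y} := by
      rintro q ω ω' hle ⟨y, hy, hr⟩
      exact ⟨y, hy, hr.mono (opn_mono le_rfl hle)⟩
    have hδI : (δ : ℝ) ∈ I := ⟨hδ0.le, hδ1⟩
    have hrel : 1 - (p' : ℝ) = (1 - p) * (1 - ((⟨δ, hδI⟩ : I) : ℝ)) := by
      simp only [hδ]
      field_simp
      ring
    obtain ⟨i, hi, hPi⟩ := sprinkle_pairs (p := p) (δ := ⟨δ, hδI⟩) (p' := p') G hfin hrel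
      (bdS D k (m * n)) J hJne
      (fun i => (i.1, ((m * i.2 : ℕ) : ℤ))) (fun i => (i.1, ((m * (i.2 + 1) : ℕ) : ℤ)))
      (colS m) m (fun i _ => card_colS m i) (fun i _ i' _ h => colS_disjoint h)
      (fun i hi τ hτ => colS_path (hJmem i hi).1.le (hJn i hi) τ hτ)
      (t := θ ^ 2) (ε := θ ^ 2 / 4) hε
      (fun i hi => by
        have h1 := attach_bd (p := p) (n := m * n) hH (hJmem i hi).1
          (x := ((m * i.2 : ℕ) : ℤ)) (by positivity)
          (by
            have := hJn i hi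
            rw [Nat.mul_succ] at this
            exact_mod_cast (by omega : m * i.2 ≤ m * n))
        have h2 := attach_bd (p := p) (n := m * n) hH (hJmem i hi).1
          (x := ((m * (i.2 + 1) : ℕ) : ℤ)) (by positivity)
          (by exact_mod_cast hJn i hi)
        have h3 := harris (p := p) hfin.toFinset (hdep (i.1, ((m * i.2 : ℕ) : ℤ)))
          (hdep (i.1, ((m * (i.2 + 1) : ℕ) : ℤ))) (hup _) (hup _)
        refine le_trans ?_ h3
        rw [sq]
        exact mul_le_mul h1 h2 hθ.le (hθ.le.trans h1))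
      (by
        have h1 := hk (bdS D k (m * n)).card (by
          have := card_bdS (D := D) k (m * n)
          rw [← hn] at this
          nlinarith)
        rw [hJcard]
        exact h1)
    refine ⟨k, m * n, ?_⟩
    have hw := (hJmem i hi).1
    have hw' : (i.1.map Neg.neg).length = k := by simp [hw]
    have h5 := Pr_conn_le (p := p') (G' := G) (G := BG D k (-((m * n : ℕ) : ℤ)) ((m * n : ℕ) : ℤ))
      (fun q : List D × ℤ => (shw (i.1.map Neg.neg) q.1, q.2 + (-((m * i.2 : ℕ) : ℤ))))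
      (shift_injOn hw' _) (fun q q' hq => BG_support q q' hq)
      (fun q q' hq => shift_adj hw' _ (by
        have := hJn i hi
        rw [Nat.mul_succ] at this
        have h6 : ((m * i.2 : ℕ) : ℤ) ≤ ((m * n : ℕ) : ℤ) := by
          exact_mod_cast (by omega : m * i.2 ≤ m * n)
        omega) (by
        have h6 : (0 : ℤ) ≤ ((m * i.2 : ℕ) : ℤ) := by positivity
        omega) q q' hq)
      (i.1, ((m * i.2 : ℕ) : ℤ)) (i.1, ((m * (i.2 + 1) : ℕ) : ℤ))
    simp only [shw_neg, hw] at h5
    have h7 : ((m * i.2 : ℕ) : ℤ) + -((m * i.2 : ℕ) : ℤ) = 0 := by ring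
    have h8 : ((m * (i.2 + 1) : ℕ) : ℤ) + -((m * i.2 : ℕ) : ℤ) = (m : ℤ) := by
      push_cast
      ring
    rw [h7, h8] at h5
    refine le_trans ?_ h5
    refine le_trans ?_ hPi
    linarith

theorem ArmHyp.mono_p {p p' : I} (hp : p ≤ p') {θ : ℝ} (hA : ArmHyp D p θ) : ArmHyp D p' θ := by
  intro k
  obtain ⟨H, hH⟩ := hA k
  refine ⟨H, hH.trans (Pr_mono_p hp ?_ ?_)⟩
  · have : {ω : Cfg (Sym2 (List D × ℤ)) |
      ∃ h : ℤ, (opn (BG D k (-H) H) ω).Reachable (List.replicate k 0, 0) ([], h)}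
      = ⋃ h : ℤ, conn (BG D k (-H) H) (List.replicate k 0, 0) ([], h) := by
      ext ω
      simp [conn]
    rw [this]
    exact MeasurableSet.iUnion (fun h => measurableSet_conn _ _ _)
  · rintro ω ω' hle ⟨h, hr⟩
    exact ⟨h, hr.mono (opn_mono le_rfl hle)⟩

end S2

end Pool.Agent.Helper37.Canopy
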