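import Pool.Agent.Helper37.Canopy.Graph

/-! Module S1: sprinkling (helper94). -/

namespace Pool.Agent.Helper37.Canopy

open MeasureTheory ProbabilityTheory unitInterval SimpleGraph

/-! ### Module S1: sprinkling -/

section S1

namespace SprinkleAux

/-- Indices whose end points are attached to points of `B` with different `c`-labels. -/
def pairsS {W : Type*} (G : SimpleGraph W) (B : Finset W) {ι : Type*}
    (a b : ι → W) (c : {y // y ∈ B} → {y // y ∈ B}) (ω : Cfg (Sym2 W)) (i : ι) : Prop :=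
  ∃ y y' : {y // y ∈ B}, (opn G ω).Reachable (a i) y.1 ∧ (opn G ω).Reachable (b i) y'.1 ∧
    c y ≠ c y'

/-- The first coordinate event: the set of indices in `J` with `pairsS` is `P`. -/
def eqSetS {W : Type*} (G : SimpleGraph W) (B : Finset W) {ι : Type*} (J : Finset ι)
    (a b : ι → W) (c : {y // y ∈ B} → {y // y ∈ B}) (P : Finset ι) : Set (Cfg (Sym2 W)) :=
  {ω | ∀ i ∈ J, pairsS G B a b c ω i ↔ i ∈ P}

/-- The second coordinate event. -/
def blockS {W : Type*} {ι : Type*} (γ : ι → Finset (Sym2 W)) (P : Finset ι) :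
    Set (Cfg (Sym2 W)) :=
  {τ | ∀ i ∈ P, ¬ ∀ e ∈ γ i, τ e = true}

theorem measurableSet_eqSetS {W : Type*} {G : SimpleGraph W} (hG : G.edgeSet.Finite)
    (B : Finset W) {ι : Type*} (J : Finset ι)
    (a b : ι → W) (c : {y // y ∈ B} → {y // y ∈ B}) (P : Finset ι) :
    MeasurableSet (eqSetS G B J a b c P) := by
  apply measurableSet_of_dep (F := hG.toFinset)
  intro ω ω' h hω
  have h' : opn G ω = opn G ω' := opn_congr G (by simpa using h)
  intro i hi
  have := hω i hi
  unfold pairsS at this ⊢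
  rw [← h']
  exact this

theorem measurableSet_openS {W : Type*} (γ : Finset (Sym2 W)) :
    MeasurableSet {τ : Cfg (Sym2 W) | ∀ e ∈ γ, τ e = true} := by
  apply measurableSet_of_dep (F := γ)
  intro ω ω' h hω e he
  rw [← h e he]
  exact hω e he

theorem blockS_eq {W : Type*} {ι : Type*} (γ : ι → Finset (Sym2 W)) (P : Finset ι) :
    blockS γ P = (⋃ i ∈ P, {τ : Cfg (Sym2 W) | ∀ e ∈ γ i, τ e = true})ᶜ := by
  ext τ
  simp [blockS]

theorem measurableSet_blockS {W : Type*} {ι : Type*} (γ : ι → Finset (Sym2 W)) (P : Finset ι) :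
    MeasurableSet (blockS γ P) := by
  rw [blockS_eq]
  exact (MeasurableSet.biUnion P.countable_toSet (fun i _ => measurableSet_openS _)).compl

theorem Pr_blockS_le {W : Type*} {ι : Type*} {δ : I} (γ : ι → Finset (Sym2 W)) (P : Finset ι)
    (m : ℕ) (hγ : ∀ i ∈ P, (γ i).card ≤ m) (hdisj : (P : Set ι).PairwiseDisjoint γ) :
    Pr δ (blockS γ P) ≤ (1 - (δ : ℝ) ^ m) ^ P.card := by
  have h1 := le_Pr_biUnion (p := δ) P (fun i => ((γ i : Finset (Sym2 W)) : Set (Sym2 W)))
    (fun i => {τ : Cfg (Sym2 W) | ∀ e ∈ γ i, τ e = true})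
    (fun i hi j hj hij => by
      have := hdisj hi hj hij
      simp only [Function.onFun] at this ⊢
      exact Finset.disjoint_coe.2 this)
    (fun i _ => measurableSet_openS _)
    (fun i _ ω ω' h hω e he => by
      rw [← h e he]
      exact hω e he)
    (c := (δ : ℝ) ^ m) (pow_nonneg δ.2.1 m)
    (fun i hi => by
      rw [Pr_open]
      exact pow_le_pow_of_le_one δ.2.1 δ.2.2 (hγ i hi))
  rw [blockS_eq]
  have hm : MeasurableSet (⋃ i ∈ P, {τ : Cfg (Sym2 W) | ∀ e ∈ γ i, τ e = true}) :=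
    Finset.measurableSet_biUnion P (fun i _ => measurableSet_openS _)
  unfold Pr at h1 ⊢
  rw [probReal_compl_eq_one_sub hm]
  linarith

/-- The bad event for the labelling `c`. -/
def badS {W : Type*} (G : SimpleGraph W) (B : Finset W) {ι : Type*} (J : Finset ι)
    (a b : ι → W) (γ : ι → Finset (Sym2 W)) (n : ℕ) (c : {y // y ∈ B} → {y // y ∈ B}) :
    Set (Cfg (Sym2 W) × Cfg (Sym2 W)) :=
  ⋃ P ∈ J.powerset.filter (fun P => n ≤ P.card), eqSetS G B J a b c P ×ˢ blockS γ P

theorem measurableSet_badS {W : Type*} {G : SimpleGraph W} (hG : G.edgeSet.Finite)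
    (B : Finset W) {ι : Type*} (J : Finset ι)
    (a b : ι → W) (γ : ι → Finset (Sym2 W)) (n : ℕ) (c : {y // y ∈ B} → {y // y ∈ B}) :
    MeasurableSet (badS G B J a b γ n c) := by
  apply MeasurableSet.biUnion (Finset.countable_toSet _)
  intro P _
  exact (measurableSet_eqSetS hG B J a b c P).prod (measurableSet_blockS γ P)

theorem badS_le {W : Type*} {G : SimpleGraph W} (hG : G.edgeSet.Finite) {p δ : I}
    (B : Finset W) {ι : Type*} (J : Finset ι)
    (a b : ι → W) (γ : ι → Finset (Sym2 W)) (n m : ℕ) (hγ : ∀ i ∈ J, (γ i).card ≤ m)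
    (hdisj : (J : Set ι).PairwiseDisjoint γ) (c : {y // y ∈ B} → {y // y ∈ B}) :
    ((mu (Sym2 W) p).prod (mu (Sym2 W) δ)).real (badS G B J a b γ n c)
      ≤ (1 - (δ : ℝ) ^ m) ^ n := by
  classical
  set U := J.powerset.filter (fun P => n ≤ P.card) with hU
  have hq0 : 0 ≤ 1 - (δ : ℝ) ^ m := by
    have := pow_le_one₀ (n := m) δ.2.1 δ.2.2
    linarith
  have hq1 : 1 - (δ : ℝ) ^ m ≤ 1 := by
    have := pow_nonneg δ.2.1 m
    linarith
  have h1 : ((mu (Sym2 W) p).prod (mu (Sym2 W) δ)).real (badS G B J a b γ n c)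
      ≤ ∑ P ∈ U, ((mu (Sym2 W) p).prod (mu (Sym2 W) δ)).real
        (eqSetS G B J a b c P ×ˢ blockS γ P) := by
    unfold badS
    exact measureReal_biUnion_finset_le U _
  have h2 : ∀ P ∈ U, ((mu (Sym2 W) p).prod (mu (Sym2 W) δ)).real
        (eqSetS G B J a b c P ×ˢ blockS γ P)
      ≤ (1 - (δ : ℝ) ^ m) ^ n * (mu (Sym2 W) p).real (eqSetS G B J a b c P) := by
    intro P hP
    rw [hU, Finset.mem_filter, Finset.mem_powerset] at hP
    rw [measureReal_prod_prod]
    have h3 : (mu (Sym2 W) δ).real (blockS γ P) ≤ (1 - (δ : ℝ) ^ m) ^ n := by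
      have := Pr_blockS_le (δ := δ) γ P m (fun i hi => hγ i (hP.1 hi))
        (hdisj.subset (by exact_mod_cast hP.1))
      exact this.trans (pow_le_pow_of_le_one hq0 hq1 hP.2)
    have h4 : 0 ≤ (mu (Sym2 W) p).real (eqSetS G B J a b c P) := measureReal_nonneg
    nlinarith
  have h5 : ∑ P ∈ U, (mu (Sym2 W) p).real (eqSetS G B J a b c P) ≤ 1 := by
    rw [← measureReal_biUnion_finset]
    · exact measureReal_le_one
    · intro P hP Q hQ hPQ
      simp only [Function.onFun]
      rw [Set.disjoint_left]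
      intro ω h6 h7
      apply hPQ
      rw [hU, Finset.mem_coe, Finset.mem_filter, Finset.mem_powerset] at hP hQ
      ext i
      constructor
      · intro hi
        exact (h7 i (hP.1 hi)).1 ((h6 i (hP.1 hi)).2 hi)
      · intro hi
        exact (h6 i (hQ.1 hi)).1 ((h7 i (hQ.1 hi)).2 hi)
    · intro P _
      exact measurableSet_eqSetS hG B J a b c P
  calc ((mu (Sym2 W) p).prod (mu (Sym2 W) δ)).real (badS G B J a b γ n c)
      ≤ ∑ P ∈ U, (1 - (δ : ℝ) ^ m) ^ n * (mu (Sym2 W) p).real (eqSetS G B J a b c P) :=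
        h1.trans (Finset.sum_le_sum h2)
    _ = (1 - (δ : ℝ) ^ m) ^ n * ∑ P ∈ U, (mu (Sym2 W) p).real (eqSetS G B J a b c P) := by
        rw [Finset.mul_sum]
    _ ≤ (1 - (δ : ℝ) ^ m) ^ n * 1 := by
        apply mul_le_mul_of_nonneg_left h5 (pow_nonneg hq0 n)
    _ = _ := by ring

/-- A labelling of `B` by representatives of the clusters. -/
theorem exists_label {W : Type*} (H : SimpleGraph W) (B : Finset W) :
    ∃ c : {y // y ∈ B} → {y // y ∈ B}, ∀ y y', c y = c y' ↔ H.Reachable y.1 y'.1 := by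
  classical
  let s : Setoid {y // y ∈ B} :=
    { r := fun y y' => H.Reachable y.1 y'.1
      iseqv := ⟨fun _ => Reachable.refl _, fun h => h.symm, fun h h' => h.trans h'⟩ }
  refine ⟨fun y => (Quotient.mk s y).out, fun y y' => ?_⟩
  constructor
  · intro h
    have h1 : Quotient.mk s y = Quotient.mk s y' := by
      rw [← Quotient.out_eq (Quotient.mk s y), ← Quotient.out_eq (Quotient.mk s y')]
      exact congrArg (Quotient.mk s) h
    exact Quotient.exact h1
  · intro h
    have h1 : Quotient.mk s y = Quotient.mk s y' := Quotient.sound h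
    simp only [h1]

end SprinkleAux

open SprinkleAux in
/-- General sprinkling lemma: `B` boundary set, `(a i, b i)` pairs joined by edge-disjoint
short paths `γ i`. -/
theorem sprinkle_pairs {W : Type*} [Countable W] (G : SimpleGraph W) (hG : G.edgeSet.Finite)
    {p δ p' : I} (h : 1 - (p' : ℝ) = (1 - p) * (1 - δ)) (B : Finset W) {ι : Type*} (J : Finset ι)
    (hJne : J.Nonempty) (a b : ι → W) (γ : ι → Finset (Sym2 W)) (m : ℕ)
    (hγ : ∀ i ∈ J, (γ i).card ≤ m) (hdisj : (J : Set ι).PairwiseDisjoint γ)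
    (hpath : ∀ i ∈ J, ∀ τ : Cfg (Sym2 W), (∀ e ∈ γ i, τ e = true) →
      (opn G τ).Reachable (a i) (b i))
    {t ε : ℝ} (hε : 0 < ε)
    (hJ : ∀ i ∈ J, t ≤ Pr p {ω | (∃ y ∈ B, (opn G ω).Reachable (a i) y) ∧
      ∃ y ∈ B, (opn G ω).Reachable (b i) y})
    (hN : (B.card : ℝ) ^ B.card * (1 - (δ : ℝ) ^ m) ^ ⌈ε * J.card⌉₊ ≤ ε) :
    ∃ i ∈ J, t - 2 * ε ≤ Pr p' (conn G (a i) (b i)) := by
  classical
  set P := (mu (Sym2 W) p).prod (mu (Sym2 W) δ) with hP
  set n := ⌈ε * J.card⌉₊ with hn
  -- the events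
  set A : ι → Set (Cfg (Sym2 W)) := fun i => {ω | (∃ y ∈ B, (opn G ω).Reachable (a i) y) ∧
      ∃ y ∈ B, (opn G ω).Reachable (b i) y} with hA
  have mA : ∀ i, MeasurableSet (A i) := by
    intro i
    apply measurableSet_of_dep (F := hG.toFinset)
    intro ω ω' h hω
    have h' : opn G ω = opn G ω' := opn_congr G (by simpa using h)
    simp only [hA, Set.mem_ofPred_eq] at hω ⊢
    rw [← h']
    exact hω
  have mOr : Measurable (fun x : Cfg (Sym2 W) × Cfg (Sym2 W) => fun e => x.1 e || x.2 e) := by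
    rw [measurable_pi_iff]
    intro e
    have h1 : Measurable (fun x : Cfg (Sym2 W) × Cfg (Sym2 W) => (x.1 e, x.2 e)) :=
      ((measurable_pi_apply e).comp measurable_fst).prodMk
        ((measurable_pi_apply e).comp measurable_snd)
    exact (measurable_of_countable (fun q : Bool × Bool => q.1 || q.2)).comp h1
  set C : ι → Set (Cfg (Sym2 W) × Cfg (Sym2 W)) :=
    fun i => {x | (fun e => x.1 e || x.2 e) ∈ conn G (a i) (b i)} with hC
  have mC : ∀ i, MeasurableSet (C i) := fun i => mOr (measurableSet_conn G _ _)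
  have hCP : ∀ i, P.real (C i) = Pr p' (conn G (a i) (b i)) := by
    intro i
    unfold Pr
    rw [← map_or h, map_measureReal_apply mOr (measurableSet_conn G _ _)]
    rfl
  have hAP : ∀ i, P.real (A i ×ˢ Set.univ) = Pr p (A i) := by
    intro i
    rw [hP, measureReal_prod_prod]
    simp [Pr]
  set Bad : Set (Cfg (Sym2 W) × Cfg (Sym2 W)) := ⋃ c, badS G B J a b γ n c with hBad
  have mBad : MeasurableSet Bad := MeasurableSet.iUnion
    (fun c => measurableSet_badS hG B J a b γ n c)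
  have hBadle : P.real Bad ≤ ε := by
    refine le_trans ?_ hN
    have h1 : P.real Bad ≤ ∑ c : ({y // y ∈ B} → {y // y ∈ B}),
        P.real (badS G B J a b γ n c) := by
      have := measureReal_biUnion_finset_le (μ := P)
        (Finset.univ : Finset ({y // y ∈ B} → {y // y ∈ B})) (fun c => badS G B J a b γ n c)
      simpa [hBad] using this
    refine h1.trans ?_
    refine (Finset.sum_le_sum (fun c _ => badS_le hG B J a b γ n m hγ hdisj c)).trans ?_
    rw [Finset.sum_const, Finset.card_univ, Fintype.card_fun, Fintype.card_coe, nsmul_eq_mul]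
    push_cast
    exact le_rfl
  -- key combinatorial fact
  have key : ∀ x : Cfg (Sym2 W) × Cfg (Sym2 W), x ∉ Bad →
      (J.filter (fun i => x.1 ∈ A i ∧ x ∉ C i)).card < n := by
    intro x hx
    by_contra hcon
    push Not at hcon
    apply hx
    set w' : Cfg (Sym2 W) := fun e => x.1 e || x.2 e with hw'
    have hle1 : opn G x.1 ≤ opn G w' := opn_mono le_rfl (fun e => by
      simp only [hw']
      cases x.1 e <;> simp)
    have hle2 : opn G x.2 ≤ opn G w' := opn_mono le_rfl (fun e => by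
      simp only [hw']
      cases x.1 e <;> cases x.2 e <;> simp)
    obtain ⟨c, hc⟩ := exists_label (opn G w') B
    rw [hBad, Set.mem_iUnion]
    refine ⟨c, ?_⟩
    set Q := J.filter (fun i => pairsS G B a b c x.1 i) with hQ
    have hsub : J.filter (fun i => x.1 ∈ A i ∧ x ∉ C i) ⊆ Q := by
      intro i hi
      rw [Finset.mem_filter] at hi
      obtain ⟨hiJ, ⟨⟨y, hy, hay⟩, ⟨y', hy', hby⟩⟩, hnC⟩ := hi
      rw [hQ, Finset.mem_filter]
      refine ⟨hiJ, ⟨y, hy⟩, ⟨y', hy'⟩, hay, hby, ?_⟩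
      intro heq
      apply hnC
      have h1 := (hc _ _).1 heq
      exact ((hay.mono hle1).trans h1).trans (hby.mono hle1).symm
    unfold badS
    rw [Set.mem_iUnion₂]
    refine ⟨Q, ?_, ?_, ?_⟩
    · rw [Finset.mem_filter, Finset.mem_powerset]
      exact ⟨Finset.filter_subset _ _, hcon.trans (Finset.card_le_card hsub)⟩
    · intro i hi
      rw [hQ, Finset.mem_filter]
      exact ⟨fun h => ⟨hi, h⟩, fun h => h.2⟩
    · intro i hi hopen
      rw [hQ, Finset.mem_filter] at hi
      obtain ⟨hiJ, y, y', hay, hby, hne⟩ := hi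
      apply hne
      rw [hc]
      exact ((hay.mono hle1).symm.trans ((hpath i hiJ x.2 hopen).mono hle2)).trans
        (hby.mono hle1)
  -- pointwise inequality
  have hpt : ∀ x : Cfg (Sym2 W) × Cfg (Sym2 W),
      ∑ i ∈ J, (A i ×ˢ (Set.univ : Set (Cfg (Sym2 W)))).indicator (fun _ => (1 : ℝ)) x
      ≤ ∑ i ∈ J, (C i).indicator (fun _ => (1 : ℝ)) x + ε * J.card
        + J.card * Bad.indicator (fun _ => (1 : ℝ)) x := by
    intro x
    have h1 : ∑ i ∈ J, (A i ×ˢ (Set.univ : Set (Cfg (Sym2 W)))).indicator (fun _ => (1 : ℝ)) x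
        ≤ ∑ i ∈ J, (C i).indicator (fun _ => (1 : ℝ)) x
          + (J.filter (fun i => x.1 ∈ A i ∧ x ∉ C i)).card := by
      rw [Finset.card_filter]
      push_cast
      rw [← Finset.sum_add_distrib]
      apply Finset.sum_le_sum
      intro i _
      by_cases h2 : x.1 ∈ A i <;> by_cases h3 : x ∈ C i <;>
        simp [Set.indicator, h2, h3]
    have h0 : (0 : ℝ) ≤ ε * J.card := by positivity
    by_cases hx : x ∈ Bad
    · rw [Set.indicator_of_mem hx]
      have h2 : ((J.filter (fun i => x.1 ∈ A i ∧ x ∉ C i)).card : ℝ) ≤ J.card := by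
        exact_mod_cast Finset.card_filter_le _ _
      linarith
    · rw [Set.indicator_of_notMem hx]
      have h2 : ((J.filter (fun i => x.1 ∈ A i ∧ x ∉ C i)).card : ℝ) < ε * J.card :=
        Nat.lt_ceil.1 (key x hx)
      linarith
  -- integrate
  have hint : ∀ S : Set (Cfg (Sym2 W) × Cfg (Sym2 W)), MeasurableSet S →
      Integrable (S.indicator (fun _ => (1 : ℝ))) P := fun S hS =>
    (integrable_const (1 : ℝ)).indicator hS
  have hval : ∀ S : Set (Cfg (Sym2 W) × Cfg (Sym2 W)), MeasurableSet S →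
      ∫ x, S.indicator (fun _ => (1 : ℝ)) x ∂P = P.real S := by
    intro S hS
    rw [integral_indicator hS]
    simp
  have iA : Integrable (fun x => ∑ i ∈ J, (A i ×ˢ (Set.univ : Set (Cfg (Sym2 W)))).indicator
      (fun _ => (1 : ℝ)) x) P :=
    integrable_finsetSum J (fun i _ => hint _ ((mA i).prod MeasurableSet.univ))
  have iC : Integrable (fun x => ∑ i ∈ J, (C i).indicator (fun _ => (1 : ℝ)) x) P :=
    integrable_finsetSum J (fun i _ => hint _ (mC i))
  have iC' : Integrable (fun x => ∑ i ∈ J, (C i).indicator (fun _ => (1 : ℝ)) x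
      + ε * J.card) P := iC.add (integrable_const _)
  have iB : Integrable (fun x => J.card * Bad.indicator (fun _ => (1 : ℝ)) x) P :=
    (hint _ mBad).const_mul _
  have hI := integral_mono (μ := P) iA (iC'.add iB) hpt
  have e1 : ∫ x, ∑ i ∈ J, (A i ×ˢ (Set.univ : Set (Cfg (Sym2 W)))).indicator
      (fun _ => (1 : ℝ)) x ∂P = ∑ i ∈ J, Pr p (A i) := by
    rw [integral_finsetSum J (fun i _ => hint _ ((mA i).prod MeasurableSet.univ))]
    apply Finset.sum_congr rfl
    intro i _
    rw [hval _ ((mA i).prod MeasurableSet.univ), hAP]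
  have e2 : ∫ x, (∑ i ∈ J, (C i).indicator (fun _ => (1 : ℝ)) x + ε * J.card
      + J.card * Bad.indicator (fun _ => (1 : ℝ)) x) ∂P
      = ∑ i ∈ J, Pr p' (conn G (a i) (b i)) + ε * J.card + J.card * P.real Bad := by
    have e3 : ∫ x, J.card * Bad.indicator (fun _ => (1 : ℝ)) x ∂P = J.card * P.real Bad := by
      rw [integral_const_mul, hval _ mBad]
    have e4 : ∫ x, ∑ i ∈ J, (C i).indicator (fun _ => (1 : ℝ)) x ∂P
        = ∑ i ∈ J, Pr p' (conn G (a i) (b i)) := by
      rw [integral_finsetSum J (fun i _ => hint _ (mC i))]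
      apply Finset.sum_congr rfl
      intro i _
      rw [hval _ (mC i), hCP]
    have e5 : ∫ _x : Cfg (Sym2 W) × Cfg (Sym2 W), ε * (J.card : ℝ) ∂P = ε * J.card := by
      rw [integral_const, probReal_univ, smul_eq_mul, one_mul]
    rw [integral_add iC' iB, integral_add iC (integrable_const _), e3, e4, e5]
  have hI' : ∑ i ∈ J, Pr p (A i)
      ≤ ∑ i ∈ J, Pr p' (conn G (a i) (b i)) + ε * J.card + J.card * P.real Bad := by
    rw [← e1, ← e2]
    exact hI
  by_contra hcon
  push Not at hcon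
  have hsum1 : ∑ i ∈ J, Pr p' (conn G (a i) (b i)) < ∑ i ∈ J, (t - 2 * ε) :=
    Finset.sum_lt_sum_of_nonempty hJne hcon
  have hsum2 : ∑ _i ∈ J, t ≤ ∑ i ∈ J, Pr p (A i) := Finset.sum_le_sum hJ
  rw [Finset.sum_const, nsmul_eq_mul] at hsum1 hsum2
  have hc0 : (0 : ℝ) ≤ J.card := Nat.cast_nonneg _
  nlinarith

end S1

end Pool.Agent.Helper37.Canopy
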